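import Pool.Agent.U167.SA.Stm7
import Pool.Agent.U97.SA.PERC

/-!
Project SA, package PXC: the finite volume probabilities converge to the probability in the infinite
volume.
-/

set_option autoImplicit false

namespace Pool.Agent.U902.SA

open H974 Filter Topology MeasureTheory
open Pool.Agent.U167.SA Pool.Agent.U97.SA

theorem Cj_mono {X Y : Set Edg} (h : X ⊆ Y) {A T : Set Vtx} (hc : Cj X A T) : Cj Y A T := by
  obtain ⟨u, hu, v, hv, hr⟩ := hc
  exact ⟨u, hu, v, hv, hr.mono h⟩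

theorem Jn_mono {X Y : Set Edg} (h : X ⊆ Y) {L : List (Set Vtx × Set Vtx)} (hc : Jn X L) :
    Jn Y L := fun q hq => Cj_mono h (hc q hq)

theorem Ev_mono {G P X Y : Set Edg} (h : X ⊆ Y) {A T : Set Vtx} {L : List (Set Vtx × Set Vtx)}
    (hc : Ev G P A T L X) : Ev G P A T L Y := by
  have h1 : (X ∪ P) ∩ G ⊆ (Y ∪ P) ∩ G :=
    Set.inter_subset_inter_left _ (Set.union_subset_union_left _ h)
  exact ⟨Cj_mono h1 hc.1, Jn_mono h1 hc.2⟩

/-- the finite part of the configuration -/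
theorem fin_mono {G P : Set Edg} {ω : Edg → Bool} {M M' : ℕ} (h : M ≤ M') :
    ((↑(op (boxE M) ω) : Set Edg) ∪ P) ∩ G ⊆ ((↑(op (boxE M') ω) : Set Edg) ∪ P) ∩ G :=
  Set.inter_subset_inter_left _ (Set.union_subset_union_left _
    (by exact_mod_cast op_mono (boxE_mono h) ω))

/-- connections use finitely many edges -/
theorem reach_fin' (G P : Set Edg) (ω : Edg → Bool) {a b : Vtx}
    (h : Reach (({e | ω e = true} ∪ P) ∩ G) a b) :
    ∃ M : ℕ, Reach (((↑(op (boxE M) ω) : Set Edg) ∪ P) ∩ G) a b := by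
  induction h with
  | refl => exact ⟨0, Reach.refl _ _⟩
  | tail _ hs ih =>
    obtain ⟨e, he, h1⟩ := hs
    obtain ⟨M, hM⟩ := ih
    obtain ⟨M', hM'⟩ := mem_boxE_large e
    refine ⟨max M M', (hM.mono (fin_mono (le_max_left _ _))).trans (Adj.reach ⟨e, ⟨?_, he.2⟩, h1⟩)⟩
    rcases he.1 with h2 | h2
    · left
      rw [Finset.mem_coe, mem_op]
      exact ⟨boxE_mono (le_max_right _ _) hM', h2⟩
    · exact Or.inr h2

theorem Cj_fin {G P : Set Edg} {ω : Edg → Bool} {A T : Set Vtx}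
    (h : Cj (({e | ω e = true} ∪ P) ∩ G) A T) :
    ∃ M : ℕ, Cj (((↑(op (boxE M) ω) : Set Edg) ∪ P) ∩ G) A T := by
  obtain ⟨u, hu, v, hv, hr⟩ := h
  obtain ⟨M, hM⟩ := reach_fin' G P ω hr
  exact ⟨M, u, hu, v, hv, hM⟩

theorem Jn_fin {G P : Set Edg} {ω : Edg → Bool} {L : List (Set Vtx × Set Vtx)}
    (h : Jn (({e | ω e = true} ∪ P) ∩ G) L) :
    ∃ M : ℕ, Jn (((↑(op (boxE M) ω) : Set Edg) ∪ P) ∩ G) L := by
  induction L with
  | nil => exact ⟨0, fun q hq => by simp at hq⟩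
  | cons q L ih =>
    obtain ⟨M, hM⟩ := ih (fun p hp => h p (List.mem_cons_of_mem _ hp))
    obtain ⟨M', hM'⟩ := Cj_fin (h q List.mem_cons_self)
    refine ⟨max M M', fun p hp => ?_⟩
    rcases List.mem_cons.1 hp with rfl | hp
    · exact Cj_mono (fin_mono (le_max_right _ _)) hM'
    · exact Cj_mono (fin_mono (le_max_left _ _)) (hM p hp)

theorem Ev_fin {G P : Set Edg} {ω : Edg → Bool} {A T : Set Vtx} {L : List (Set Vtx × Set Vtx)}
    (h : Ev G P A T L {e | ω e = true}) : ∃ M : ℕ, Ev G P A T L (↑(op (boxE M) ω) : Set Edg) := by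
  obtain ⟨M, hM⟩ := Cj_fin h.1
  obtain ⟨M', hM'⟩ := Jn_fin h.2
  exact ⟨max M M', Cj_mono (fin_mono (le_max_left _ _)) hM,
    Jn_mono (fin_mono (le_max_right _ _)) hM'⟩

theorem t_PXC : PXCStm := by
  intro G P A T L
  have hU : {ω : Edg → Bool | Ev G P A T L {e | ω e = true}} =
      ⋃ M : ℕ, {ω | Ev G P A T L (↑(op (boxE M) ω) : Set Edg)} := by
    ext ω
    rw [Set.mem_iUnion]
    constructor
    · intro h
      obtain ⟨M, hM⟩ := Ev_fin h
      exact ⟨M, hM⟩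
    · rintro ⟨M, hM⟩
      refine Ev_mono ?_ hM
      intro e he
      rw [Finset.mem_coe, mem_op] at he
      exact he.2
  have h2 : Tendsto (fun M : ℕ => percE {ω | Ev G P A T L (↑(op (boxE M) ω) : Set Edg)}) atTop
      (𝓝 (percE (⋃ M : ℕ, {ω | Ev G P A T L (↑(op (boxE M) ω) : Set Edg)}))) := by
    refine tendsto_measure_iUnion_atTop ?_
    intro M M' h ω hω
    exact Ev_mono (by exact_mod_cast op_mono (boxE_mono h) ω) hω
  have h3 := (ENNReal.tendsto_toReal (measure_ne_top percE _)).comp h2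
  have h4 : (fun M : ℕ => (percE {ω | Ev G P A T L (↑(op (boxE M) ω) : Set Edg)}).toReal) =
      fun M : ℕ => Pr (fun _ => (1/2 : ℝ)) (boxE M) (fun F => Ev G P A T L ↑F) := by
    funext M
    exact percE_event (boxE M) (fun F => Ev G P A T L (↑F : Set Edg))
  unfold PX
  rw [hU]
  exact h4 ▸ h3

end Pool.Agent.U902.SA
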